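import Pool.Agent.W231.H.Cnt
import Pool.Agent.W231.R.Count
import Pool.Agent.W231.M.Main

set_option autoImplicit false

/-!
The truncated Vojta inequality for divisors containing `n + 2` hyperplanes in general position:
degree of the exceptional set.
-/

namespace Pool.Agent.W231.H

open NumberField IsDedekindDomain Height Finset Polynomial Pool.Agent.W231.V Pool.Agent.W231.R
  Pool.Agent.W231.M

variable {K : Type*} [Field K] [NumberField K]

lemma degreeOf_subst {Ω : Type*} [Field Ω] {σ τ : Type*} [Fintype σ]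
    (f : σ → MvPolynomial τ Ω) (j : τ) (hf : ∀ l, (f l).degreeOf j ≤ 1) (G : MvPolynomial σ Ω) :
    (MvPolynomial.aeval f G).degreeOf j ≤ G.totalDegree := by
  classical
  rw [MvPolynomial.aeval_def, MvPolynomial.eval₂_eq']
  refine (MvPolynomial.degreeOf_sum_le j _ _).trans (Finset.sup_le fun m hm => ?_)
  refine (MvPolynomial.degreeOf_mul_le _ _ _).trans ?_
  have h1 : ∑ l, m l ≤ G.totalDegree := by
    have := MvPolynomial.le_totalDegree hm
    rwa [Finsupp.sum_fintype _ _ (fun _ => rfl)] at this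
  have h2 : (algebraMap Ω (MvPolynomial τ Ω) (G.coeff m)).degreeOf j = 0 := by
    rw [MvPolynomial.algebraMap_eq]
    exact MvPolynomial.degreeOf_C _ _
  rw [h2, zero_add]
  refine (MvPolynomial.degreeOf_prod_le _ _ _).trans (le_trans (Finset.sum_le_sum fun l _ => ?_) h1)
  refine (MvPolynomial.degreeOf_pow_le _ _ _).trans ?_
  calc m l * (f l).degreeOf j ≤ m l * 1 := Nat.mul_le_mul_left _ (hf l)
    _ = m l := mul_one _

theorem main6 {n : ℕ} (hn : 2 ≤ n) (L : Fin (n + 2) → Fin (n + 1) → K)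
    (hgp : ∀ I : Finset (Fin (n + 2)), I.card = n + 1 → LinearIndependent K (fun i : I => L i))
    (F : MvPolynomial (Fin (n + 1)) K) {d : ℕ} (hF0 : F ≠ 0) (hFd : F.IsHomogeneous d)
    (hdiv : (∏ i, lin (L i)) ∣ F)
    {Ω : Type*} [Field Ω] [Algebra K Ω] (G : MvPolynomial (Fin (n + 1)) Ω) (hG : G ≠ 0) {δ : ℕ}
    (hGδ : G.IsHomogeneous δ) {ε : ℝ} (C : ℝ) {k : ℕ} (hk : Odd k) (hεk : ε * k < 1)
    (Ps : Finset K[X]) (hPs : ∀ P ∈ Ps, P.eval 0 = 1 ∧ P ∣ 1 - X ^ k)
    (hlt : 2 * (δ + d) < Ps.card) :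
    ∃ x : Fin (n + 1) → K, MvPolynomial.eval x F ≠ 0 ∧
      MvPolynomial.eval (fun j => algebraMap K Ω (x j)) G ≠ 0 ∧
      {v : HeightOneSpectrum (𝓞 K) | Bad v F d x}.Finite ∧
      ∀ T : Finset (HeightOneSpectrum (𝓞 K)), (∀ v ∈ T, Bad v F d x) →
        ∑ v ∈ T, ell v + ε * logHeight x + C < ((d : ℝ) - n - 1) * logHeight x := by
  classical
  have : CharZero Ω := charZero_of_injective_algebraMap (algebraMap K Ω).injective
  set φ : K →+* Ω := algebraMap K Ω with hφ
  have hk1 : 1 ≤ k := hk.pos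
  -- degrees
  obtain ⟨E, hE⟩ := hdiv
  have hE0 : E ≠ 0 := by
    rintro rfl
    exact hF0 (by rw [hE, mul_zero])
  have hL0 : (∏ i, lin (L i)) ≠ 0 := by
    intro h
    exact hF0 (by rw [hE, h, zero_mul])
  have hlinh : ∀ l : Fin (n + 1) → K, (lin l).IsHomogeneous 1 := by
    intro l
    unfold lin
    refine MvPolynomial.IsHomogeneous.sum _ _ _ fun j _ => ?_
    have := (MvPolynomial.isHomogeneous_C (Fin (n + 1)) (l j)).mul
      (MvPolynomial.isHomogeneous_X K j)
    rwa [zero_add] at this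
  have hprodh : (∏ i, lin (L i)).IsHomogeneous (n + 2) := by
    have := MvPolynomial.IsHomogeneous.prod (Finset.univ) (fun i => lin (L i)) (fun _ => 1)
      (fun i _ => hlinh (L i))
    simpa using this
  have hEdeg : d = n + 2 + E.totalDegree := by
    have h1 := MvPolynomial.totalDegree_mul_of_isDomain hL0 hE0
    rw [← hE, hFd.totalDegree hF0, hprodh.totalDegree hL0] at h1
    exact h1
  -- the plane
  set G' : MvPolynomial (Fin (n + 1)) Ω := G * MvPolynomial.map φ F with hG'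
  have hG'0 : G' ≠ 0 := by
    refine mul_ne_zero hG ?_
    intro h
    exact hF0 (MvPolynomial.map_injective φ φ.injective (by rw [h, map_zero]))
  have hG'δ : G'.IsHomogeneous (δ + d) := hGδ.mul (hFd.map φ)
  obtain ⟨A0, A1, A2, c, i0, i1, i2, i3, s, y1, y2, hs, hc, i10, i20, i21, i30, i31, i32, hGpl,
    hpl⟩ := exists_plane hn L hgp G' hG'0
  -- the polynomial on the plane
  set f : Fin (n + 1) → MvPolynomial (Fin 2) Ω := fun j => MvPolynomial.C (φ (A0 j)) +
    MvPolynomial.X 0 * MvPolynomial.C (φ (A1 j)) + MvPolynomial.X 1 * MvPolynomial.C (φ (A2 j))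
    with hf
  set H : MvPolynomial (Fin 2) Ω := MvPolynomial.aeval f G' with hH
  have hHev : ∀ z : Fin 2 → Ω, MvPolynomial.eval z H = MvPolynomial.eval
      (fun j => φ (A0 j) + z 0 * φ (A1 j) + z 1 * φ (A2 j)) G' := by
    intro z
    rw [hH, MvPolynomial.aeval_def, MvPolynomial.hom_eval₂]
    have h2 : (MvPolynomial.eval z).comp (algebraMap Ω (MvPolynomial (Fin 2) Ω)) =
        RingHom.id Ω := by ext c; simp
    rw [h2]
    change MvPolynomial.eval₂ (RingHom.id Ω) _ G' = MvPolynomial.eval₂ (RingHom.id Ω) _ G'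
    congr 1
    funext j
    simp [hf]
  have hplφ : ∀ u T : K, (fun j => φ (pl A0 A1 A2 u T j)) =
      fun j => φ (A0 j) + φ u * φ (A1 j) + φ T * φ (A2 j) := by
    intro u T
    funext j
    simp [pl]
  have hH0 : H ≠ 0 := by
    intro h0
    apply hGpl
    have h1 := hHev ![φ y1, φ y2]
    rw [h0, map_zero] at h1
    have h2 : (fun j => φ (s * pl A0 A1 A2 y1 y2 j)) =
        fun j => φ s * (fun j => φ (pl A0 A1 A2 y1 y2 j)) j := by
      funext j
      simp
    have h4 : MvPolynomial.eval (fun j => φ s * (fun j => φ (pl A0 A1 A2 y1 y2 j)) j) G' =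
        φ s ^ (δ + d) * MvPolynomial.eval (fun j => φ (pl A0 A1 A2 y1 y2 j)) G' :=
      hom_eval₂ (RingHom.id Ω) hG'δ (φ s) _
    rw [h2, h4, hplφ]
    have h3 : (fun j => φ (A0 j) + φ y1 * φ (A1 j) + φ y2 * φ (A2 j)) = fun j => φ (A0 j) +
        (![φ y1, φ y2] : Fin 2 → Ω) 0 * φ (A1 j) + (![φ y1, φ y2] : Fin 2 → Ω) 1 * φ (A2 j) := rfl
    rw [h3, ← h1, mul_zero]
  have hHdeg : H.degreeOf 0 ≤ δ + d := by
    rw [← hG'δ.totalDegree hG'0, hH]
    refine degreeOf_subst f 0 (fun l => ?_) G'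
    simp only [hf]
    refine (MvPolynomial.degreeOf_add_le _ _ _).trans (max_le
      ((MvPolynomial.degreeOf_add_le _ _ _).trans (max_le ?_ ?_)) ?_)
    · rw [MvPolynomial.degreeOf_C]; exact Nat.zero_le _
    · refine (MvPolynomial.degreeOf_mul_le _ _ _).trans ?_
      rw [MvPolynomial.degreeOf_C, MvPolynomial.degreeOf_X]
      simp
    · refine (MvPolynomial.degreeOf_mul_le _ _ _).trans ?_
      rw [MvPolynomial.degreeOf_C, MvPolynomial.degreeOf_X]
      simp
  -- the curve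
  have hcard := card_le hk Ps hPs
  set Rs : Finset K[X] := Ps.image fun P => pV P ((1 - X ^ k) / P) ^ 2 with hRs
  obtain ⟨R', hR', s', hRs'⟩ := exists_onC H hH0 (i := 1) (j := 0) (by decide) (k := 2 * k)
    (by omega) (Rs.image (Polynomial.map φ)) (by
    rw [Finset.card_image_of_injective _ (Polynomial.map_injective φ φ.injective)]
    omega)
  obtain ⟨R, hR, rfl⟩ := Finset.mem_image.1 hR'
  rw [hRs] at hR
  obtain ⟨P, hP, rfl⟩ := Finset.mem_image.1 hR
  set Q : K[X] := (1 - X ^ k) / P with hQ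
  obtain ⟨hP0, hPd⟩ := hPs P hP
  have hPQ : P * Q = 1 - X ^ k := by
    refine EuclideanDomain.mul_div_cancel' ?_ hPd
    rintro rfl
    simp at hP0
  obtain ⟨W, hW, hWk⟩ := pW_dvd hk1 hPQ hP0 (quot_zero hk1 hPQ hP0)
  -- estimates
  obtain ⟨c1, hc1⟩ := count_le L E d A0 A1 A2 c i0 i1 i2 hc hpl hk hPQ hW hWk
  obtain ⟨c2, hc2⟩ := logHeight_ge (fun j => (c i3)⁻¹ * L i3 j) (fun j => (c i2)⁻¹ * L i2 j)
  set D : ℝ := (totalWeight K : ℝ) with hD
  have hD0 : 0 < D := by
    have : (totalWeight K : ℝ) = (Module.finrank ℚ K : ℝ) := by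
      rw [← sum_mult]
      exact_mod_cast InfinitePlace.sum_mult_eq
    rw [hD, this]
    exact_mod_cast Module.finrank_pos
  set e : ℝ := (E.totalDegree : ℝ) with he
  have he0 : 0 ≤ e := Nat.cast_nonneg _
  have hk0 : (0 : ℝ) < k := by exact_mod_cast (by omega : 0 < k)
  have hk1R : (1 : ℝ) ≤ k := by exact_mod_cast hk1
  have hε1 : ε < 1 := by
    by_contra hcon
    push Not at hcon
    nlinarith
  have hθ : 0 < 1 + e - ε := by linarith
  set γ : ℝ := 2 * (1 - ε * k) * D with hγ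
  have hγ0 : 0 < γ := by
    have : 0 < 1 - ε * k := by linarith
    positivity
  -- the parameter
  have h2ord : ∀ n : ℕ, 0 < n → (2 : K) ^ n ≠ 1 := by
    intro n hn h
    have h1 : ((2 ^ n : ℕ) : K) = ((1 : ℕ) : K) := by push_cast; exact h
    have h2 : 2 ^ n = 1 := Nat.cast_injective h1
    have := Nat.one_lt_two_pow (n := n) (by omega)
    omega
  have hev1 := eventually_unit _ hRs' (two_ne_zero (α := K)) h2ord
  obtain ⟨q, hq1, hq2⟩ := (hev1.and (Filter.eventually_ge_atTop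
    (⌈(c1 + (1 + e - ε) * c2 + C + 1) / (γ * Real.log 2)⌉₊ + 1))).exists
  set t : ℕ := 2 ^ q with ht
  have ht1 : 1 ≤ t := Nat.one_le_two_pow
  set x := pl A0 A1 A2 ((pV P Q).eval (t : K) ^ 2) ((t : K) ^ (2 * k)) with hx
  have hGx : MvPolynomial.eval (fun j => φ (x j)) G' ≠ 0 := by
    have e1 : (2 : K) ^ q = ((t : ℕ) : K) := by rw [ht]; push_cast; rfl
    rw [onC_eval, e1, hHev] at hq1
    rw [hx, hplφ]
    convert hq1 using 3
    funext j
    congr 2
    · congr 1
      rw [if_neg (by decide), if_pos rfl, Polynomial.eval_map, Polynomial.eval₂_at_apply,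
        eval_pow]
    · rw [if_pos rfl, map_pow]
  rw [hG', map_mul] at hGx
  have hFx : MvPolynomial.eval x F ≠ 0 := by
    intro h0
    apply right_ne_zero_of_mul hGx
    rw [MvPolynomial.eval_map]
    have h2 : φ (MvPolynomial.eval x F) = MvPolynomial.eval₂ φ (fun l => φ (x l)) F := by
      have h3 : MvPolynomial.eval x F = MvPolynomial.eval₂ (RingHom.id K) x F := rfl
      rw [h3, MvPolynomial.hom_eval₂, RingHom.comp_id]
    rw [← h2, h0, map_zero]
  obtain ⟨hfin, hsum⟩ := hc1 q x hx (by rw [← hE]; exact hFx)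
  rw [← hE] at hfin hsum
  refine ⟨x, hFx, left_ne_zero_of_mul hGx, hfin, fun T hT => ?_⟩
  have g1 := hsum T hT
  obtain ⟨f0, f1, f2, f3⟩ := hpl ((pV P Q).eval (t : K) ^ 2) ((t : K) ^ (2 * k))
  rw [← hx] at f2
  have f3' := f3 i3 i30 i31 i32
  rw [← hx] at f3'
  have g2 := hc2 x (2 * k) t ht1 (by
    have : ∑ j, (c i3)⁻¹ * L i3 j * x j = (c i3)⁻¹ * ∑ j, L i3 j * x j := by
      rw [Finset.mul_sum]
      exact Finset.sum_congr rfl fun j _ => by ring
    rw [this, f3']
    exact inv_mul_cancel₀ (hc i3)) (by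
    have : ∑ j, (c i2)⁻¹ * L i2 j * x j = (c i2)⁻¹ * ∑ j, L i2 j * x j := by
      rw [Finset.mul_sum]
      exact Finset.sum_congr rfl fun j _ => by ring
    rw [this, f2, ← mul_assoc, inv_mul_cancel₀ (hc i2), one_mul])
  have hq0 : 1 ≤ q := by omega
  have hlogt : Real.log t = q * Real.log 2 := by rw [ht]; push_cast; rw [Real.log_pow]
  have hl2 : 0 < Real.log 2 := Real.log_pos (by norm_num)
  have hlogt0 : 0 ≤ Real.log t := by rw [hlogt]; positivity
  have m5 : c1 + (1 + e - ε) * c2 + C < γ * Real.log t := by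
    have h1 : (c1 + (1 + e - ε) * c2 + C + 1) / (γ * Real.log 2) ≤ q := by
      refine (Nat.le_ceil _).trans ?_
      exact_mod_cast (by omega : ⌈(c1 + (1 + e - ε) * c2 + C + 1) / (γ * Real.log 2)⌉₊ ≤ q)
    rw [div_le_iff₀ (by positivity)] at h1
    rw [hlogt]
    have h3 : γ * (q * Real.log 2) = q * (γ * Real.log 2) := by ring
    rw [h3]
    linarith
  have hkk : ((k - 1 : ℕ) : ℝ) = k - 1 := by rw [Nat.cast_sub hk1]; simp
  rw [hkk] at g1
  push_cast at g1 g2
  have hdR : (d : ℝ) = n + 2 + e := by rw [he, hEdeg]; push_cast; ring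
  rw [hdR]
  have m1 : (1 + e - ε) * (D * (2 * k * Real.log t) - c2) ≤ (1 + e - ε) * logHeight x :=
    mul_le_mul_of_nonneg_left (by linarith) hθ.le
  have m2 : (1 + e - ε) * (D * (2 * k * Real.log t) - c2) -
      D * ((k - 1 + (k - 1) + e * (2 * k)) * Real.log t) =
      γ * Real.log t - (1 + e - ε) * c2 := by
    rw [hγ]
    ring
  have g1' : ∑ v ∈ T, ell v ≤ D * ((k - 1 + (k - 1) + e * (2 * k)) * Real.log t) + c1 := by
    have : (Real.log t : ℝ) = Real.log (2 ^ q) := by rw [ht]; push_cast; rfl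
    rw [this]
    exact g1
  linarith

end Pool.Agent.W231.H
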