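import Mathlib

set_option autoImplicit false

/-!
`V ^ 2 - W ^ 2 = 1 - X ^ (2 k)` from factorisations `P Q = 1 - X ^ k`, `k` odd.
-/

namespace Pool.Agent.W231.H

open Polynomial Finset

variable {K : Type*} [Field K]

/-- `P(t) Q(-t)` -/
noncomputable def pA (P Q : K[X]) : K[X] := P * Q.comp (-X)

/-- the even part -/
noncomputable def pV (P Q : K[X]) : K[X] := C (1 / 2) * (pA P Q + pA Q P)

/-- the odd part -/
noncomputable def pW (P Q : K[X]) : K[X] := C (1 / 2) * (pA P Q - pA Q P)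

lemma comp_natDegree (Q : K[X]) : (Q.comp (-X)).natDegree = Q.natDegree := by
  rw [natDegree_comp, natDegree_neg, natDegree_X, mul_one]

lemma one_sub_comp {k : ℕ} (hk : Odd k) : (1 - X ^ k : K[X]).comp (-X) = 1 + X ^ k := by
  rw [sub_comp, one_comp, pow_comp, X_comp, hk.neg_pow]
  ring

lemma pA_mul {k : ℕ} (hk : Odd k) {P Q : K[X]} (h : P * Q = 1 - X ^ k) :
    pA P Q * pA Q P = 1 - X ^ (2 * k) := by
  unfold pA
  have h1 : Q.comp (-X) * P.comp (-X) = 1 + X ^ k := by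
    rw [← mul_comp, mul_comm Q P, h, one_sub_comp hk]
  calc P * Q.comp (-X) * (Q * P.comp (-X)) = (P * Q) * (Q.comp (-X) * P.comp (-X)) := by ring
    _ = (1 - X ^ k) * (1 + X ^ k) := by rw [h, h1]
    _ = _ := by ring

variable [CharZero K]

lemma pV_sq {k : ℕ} (hk : Odd k) {P Q : K[X]} (h : P * Q = 1 - X ^ k) :
    pV P Q ^ 2 - pW P Q ^ 2 = 1 - X ^ (2 * k) := by
  rw [← pA_mul hk h]
  unfold pV pW
  have h2 : (C (1 / 2) : K[X]) * 2 = 1 := by
    have : (2 : K[X]) = C 2 := rfl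
    rw [this, ← C_mul]
    norm_num
  linear_combination (pA P Q * pA Q P) * (C (1 / 2) * 2 + 1) * h2

lemma pA_eq {P Q : K[X]} : pA P Q = pV P Q + pW P Q := by
  have h2 : (C (1 / 2) : K[X]) * 2 = 1 := by
    have : (2 : K[X]) = C 2 := rfl
    rw [this, ← C_mul]
    norm_num
  unfold pV pW
  linear_combination -(pA P Q) * h2

lemma pA_eq' {P Q : K[X]} : pA Q P = pV P Q - pW P Q := by
  have h2 : (C (1 / 2) : K[X]) * 2 = 1 := by
    have : (2 : K[X]) = C 2 := rfl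
    rw [this, ← C_mul]
    norm_num
  unfold pV pW
  linear_combination -(pA Q P) * h2

lemma degs {k : ℕ} (hk : 1 ≤ k) {P Q : K[X]} (h : P * Q = 1 - X ^ k) :
    P ≠ 0 ∧ Q ≠ 0 ∧ P.natDegree + Q.natDegree = k := by
  have hd1 : (1 - X ^ k : K[X]).natDegree = k := by
    have : (1 - X ^ k : K[X]) = -(X ^ k - 1) := by ring
    rw [this, natDegree_neg]
    exact natDegree_X_pow_sub_C (n := k) (r := (1 : K))
  have hne1 : (1 - X ^ k : K[X]) ≠ 0 := by
    intro h
    rw [h, natDegree_zero] at hd1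
    omega
  have hPne : P ≠ 0 := by
    rintro rfl
    rw [zero_mul] at h
    exact hne1 h.symm
  have hQne : Q ≠ 0 := by
    rintro rfl
    rw [mul_zero] at h
    exact hne1 h.symm
  refine ⟨hPne, hQne, ?_⟩
  rw [← natDegree_mul hPne hQne, h, hd1]

lemma pA_natDegree {k : ℕ} (hk : 1 ≤ k) {P Q : K[X]} (h : P * Q = 1 - X ^ k) :
    (pA P Q).natDegree = k := by
  obtain ⟨hP, hQ, hd⟩ := degs hk h
  unfold pA
  rw [natDegree_mul hP (by rwa [Ne, comp_neg_X_eq_zero_iff]), comp_natDegree, hd]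

lemma pA_lead {P Q : K[X]} : (pA P Q).leadingCoeff =
    P.leadingCoeff * ((-1) ^ Q.natDegree * Q.leadingCoeff) := by
  unfold pA
  rw [leadingCoeff_mul, comp_neg_X_leadingCoeff_eq]

lemma pV_natDegree {k : ℕ} (hk : Odd k) {P Q : K[X]} (h : P * Q = 1 - X ^ k) :
    (pV P Q).natDegree ≤ k - 1 := by
  have hk1 : 1 ≤ k := hk.pos
  have h' : Q * P = 1 - X ^ k := by rw [mul_comm, h]
  obtain ⟨hP, hQ, hd⟩ := degs hk1 h
  have d1 := pA_natDegree hk1 h
  have d2 := pA_natDegree hk1 h'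
  have l1 : (pA P Q).coeff k = P.leadingCoeff * ((-1) ^ Q.natDegree * Q.leadingCoeff) := by
    rw [← pA_lead, leadingCoeff, d1]
  have l2 : (pA Q P).coeff k = Q.leadingCoeff * ((-1) ^ P.natDegree * P.leadingCoeff) := by
    rw [← pA_lead, leadingCoeff, d2]
  have hs : (-1 : K) ^ P.natDegree = -(-1) ^ Q.natDegree := by
    have e1 : (-1 : K) ^ P.natDegree * (-1) ^ Q.natDegree = -1 := by
      rw [← pow_add, hd]
      exact hk.neg_one_pow
    have e2 : (-1 : K) ^ Q.natDegree * (-1) ^ Q.natDegree = 1 := by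
      rw [← pow_add]
      exact Even.neg_one_pow ⟨_, rfl⟩
    linear_combination (-1 : K) ^ Q.natDegree * e1 - (-1) ^ P.natDegree * e2
  have h0 : (pV P Q).coeff k = 0 := by
    unfold pV
    rw [coeff_C_mul, coeff_add, l1, l2, hs]
    ring
  have hle : (pV P Q).natDegree ≤ k := by
    unfold pV
    refine (natDegree_C_mul_le _ _).trans ((natDegree_add_le _ _).trans ?_)
    rw [d1, d2, max_self]
  by_contra hcon
  have hk2 : (pV P Q).natDegree = k := by omega
  have h1 : (pV P Q).leadingCoeff = 0 := by rw [leadingCoeff, hk2, h0]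
  rw [leadingCoeff_eq_zero] at h1
  rw [h1, natDegree_zero] at hcon
  omega

lemma pA_zero {P Q : K[X]} (hP : P.eval 0 = 1) (hQ : Q.eval 0 = 1) : (pA P Q).eval 0 = 1 := by
  unfold pA
  rw [eval_mul, eval_comp, eval_neg, eval_X, neg_zero, hP, hQ, one_mul]

lemma pV_zero {P Q : K[X]} (hP : P.eval 0 = 1) (hQ : Q.eval 0 = 1) : (pV P Q).eval 0 = 1 := by
  unfold pV
  rw [eval_mul, eval_add, pA_zero hP hQ, pA_zero hQ hP, eval_C]
  norm_num

lemma pW_dvd {k : ℕ} (hk : 1 ≤ k) {P Q : K[X]} (h : P * Q = 1 - X ^ k) (hP : P.eval 0 = 1)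
    (hQ : Q.eval 0 = 1) : ∃ W : K[X], pW P Q = X * W ∧ W.natDegree ≤ k - 1 := by
  have h' : Q * P = 1 - X ^ k := by rw [mul_comm, h]
  have h0 : X ∣ pW P Q := by
    rw [X_dvd_iff, coeff_zero_eq_eval_zero]
    unfold pW
    rw [eval_mul, eval_sub, pA_zero hP hQ, pA_zero hQ hP, sub_self, mul_zero]
  obtain ⟨W, hW⟩ := h0
  refine ⟨W, hW, ?_⟩
  have hle : (pW P Q).natDegree ≤ k := by
    unfold pW
    refine (natDegree_C_mul_le _ _).trans ((natDegree_sub_le _ _).trans ?_)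
    rw [pA_natDegree hk h, pA_natDegree hk h', max_self]
  by_cases hW0 : W = 0
  · rw [hW0, natDegree_zero]; exact Nat.zero_le _
  · have h1 : (pW P Q).natDegree = W.natDegree + 1 := by
      rw [hW, natDegree_X_mul hW0]
    omega

lemma quot_zero {k : ℕ} (hk : 1 ≤ k) {P Q : K[X]} (h : P * Q = 1 - X ^ k) (hP : P.eval 0 = 1) :
    Q.eval 0 = 1 := by
  have h1 := congrArg (eval 0) h
  rw [eval_mul, hP, one_mul] at h1
  simpa [show k ≠ 0 by omega] using h1

lemma eq_of_pA_eq {k : ℕ} (hk : Odd k) {P Q P' Q' : K[X]} (h : P * Q = 1 - X ^ k)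
    (h' : P' * Q' = 1 - X ^ k) (hP : P.eval 0 = 1) (hP' : P'.eval 0 = 1)
    (hA : pA P Q = pA P' Q') : P = P' := by
  have hco : ∀ R S : K[X], R ∣ 1 - X ^ k → S ∣ 1 - X ^ k → IsCoprime R (S.comp (-X)) := by
    intro R S hR hS
    have h1 : IsCoprime (1 - X ^ k : K[X]) (1 + X ^ k) := by
      refine ⟨C (1 / 2), C (1 / 2), ?_⟩
      have h2 : (C (1 / 2) : K[X]) * 2 = 1 := by
        have : (2 : K[X]) = C 2 := rfl
        rw [this, ← C_mul]
        norm_num
      linear_combination h2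
    refine h1.of_isCoprime_of_dvd_left hR |>.of_isCoprime_of_dvd_right ?_
    obtain ⟨T, hT⟩ := hS
    refine ⟨T.comp (-X), ?_⟩
    rw [← mul_comp, ← hT, one_sub_comp hk]
  have d1 : P ∣ P' := by
    have e1 : P ∣ P' * Q'.comp (-X) := by
      have : pA P' Q' = P' * Q'.comp (-X) := rfl
      rw [← this, ← hA]
      exact Dvd.intro _ rfl
    exact (hco P Q' ⟨Q, h.symm⟩ ⟨P', by rw [mul_comm, h']⟩).dvd_of_dvd_mul_right e1
  have d2 : P' ∣ P := by
    have e1 : P' ∣ P * Q.comp (-X) := by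
      have : pA P Q = P * Q.comp (-X) := rfl
      rw [← this, hA]
      exact Dvd.intro _ rfl
    exact (hco P' Q ⟨Q', h'.symm⟩ ⟨P, by rw [mul_comm, h]⟩).dvd_of_dvd_mul_right e1
  obtain ⟨u, hu⟩ := associated_of_dvd_dvd d1 d2
  obtain ⟨c, hc, hcu⟩ := Polynomial.isUnit_iff.1 u.isUnit
  rw [← hcu] at hu
  have h3 := congrArg (eval 0) hu
  rw [eval_mul, eval_C, hP, hP', one_mul] at h3
  rw [h3, C_1, mul_one] at hu
  exact hu

lemma eq_or_eq {k : ℕ} (hk : Odd k) {P Q P' Q' : K[X]} (h : P * Q = 1 - X ^ k)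
    (h' : P' * Q' = 1 - X ^ k) (hP : P.eval 0 = 1) (hP' : P'.eval 0 = 1)
    (hV : pV P Q ^ 2 = pV P' Q' ^ 2) : P = P' ∨ P = Q' := by
  have hQ := quot_zero hk.pos h hP
  have hQ' := quot_zero hk.pos h' hP'
  have h'' : Q' * P' = 1 - X ^ k := by rw [mul_comm, h']
  have hV' : pV P Q = pV P' Q' := by
    rcases sq_eq_sq_iff_eq_or_eq_neg.1 hV with h1 | h1
    · exact h1
    · exfalso
      have h2 := congrArg (eval 0) h1
      rw [eval_neg, pV_zero hP hQ, pV_zero hP' hQ'] at h2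
      norm_num at h2
  have hW : pW P Q ^ 2 = pW P' Q' ^ 2 := by
    have e1 := pV_sq hk h
    have e2 := pV_sq hk h'
    linear_combination hV + e2 - e1
  rcases sq_eq_sq_iff_eq_or_eq_neg.1 hW with h1 | h1
  · left
    refine eq_of_pA_eq hk h h' hP hP' ?_
    rw [pA_eq, pA_eq (P := P'), hV', h1]
  · right
    refine eq_of_pA_eq hk h h'' hP hQ' ?_
    rw [pA_eq, pA_eq' (P := P'), hV', h1]
    ring

/-- the number of the curves -/
lemma card_le [DecidableEq K[X]] {k : ℕ} (hk : Odd k) (Ps : Finset K[X])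
    (hPs : ∀ P ∈ Ps, P.eval 0 = 1 ∧ P ∣ 1 - X ^ k) :
    Ps.card ≤ 2 * (Ps.image fun P => pV P ((1 - X ^ k) / P) ^ 2).card := by
  classical
  have hmul : ∀ P ∈ Ps, P * ((1 - X ^ k) / P) = 1 - X ^ k := by
    intro P hP
    refine EuclideanDomain.mul_div_cancel' ?_ (hPs P hP).2
    rintro rfl
    have := (hPs 0 hP).1
    simp at this
  refine Finset.card_le_mul_card_image Ps 2 fun b hb => ?_
  obtain ⟨P', hP', rfl⟩ := Finset.mem_image.1 hb
  refine (Finset.card_le_card (t := {P', (1 - X ^ k) / P'}) fun P hP => ?_).trans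
    Finset.card_le_two
  rw [Finset.mem_filter] at hP
  rw [Finset.mem_insert, Finset.mem_singleton]
  exact eq_or_eq hk (hmul P hP.1) (hmul P' hP') (hPs P hP.1).1 (hPs P' hP').1 hP.2

end Pool.Agent.W231.H
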