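import Pool.Agent.W231.V.Geo

set_option autoImplicit false

/-!
A plane in general position with respect to `n + 2` hyperplanes in general position.
-/

namespace Pool.Agent.W231.H

open Finset Pool.Agent.W231.V

variable {K : Type*} [Field K] [Infinite K]

/-- the affine plane -/
def pl {σ : Type*} (A0 A1 A2 : σ → K) (u T : K) (j : σ) : K := A0 j + u * A1 j + T * A2 j

lemma exists_plane {n : ℕ} (hn : 2 ≤ n) (L : Fin (n + 2) → Fin (n + 1) → K)
    (hgp : ∀ I : Finset (Fin (n + 2)), I.card = n + 1 → LinearIndependent K (fun i : I => L i))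
    {Ω : Type*} [Field Ω] [Algebra K Ω] (G : MvPolynomial (Fin (n + 1)) Ω) (hG : G ≠ 0) :
    ∃ (A0 A1 A2 : Fin (n + 1) → K) (c : Fin (n + 2) → K) (i0 i1 i2 i3 : Fin (n + 2)) (s y1 y2 : K),
      s ≠ 0 ∧ (∀ i, c i ≠ 0) ∧ i1 ≠ i0 ∧ i2 ≠ i0 ∧ i2 ≠ i1 ∧ i3 ≠ i0 ∧ i3 ≠ i1 ∧ i3 ≠ i2 ∧
      MvPolynomial.eval (fun j => algebraMap K Ω (s * pl A0 A1 A2 y1 y2 j)) G ≠ 0 ∧
      ∀ u T : K, ∑ j, L i0 j * pl A0 A1 A2 u T j = c i0 * u ∧
        ∑ j, L i1 j * pl A0 A1 A2 u T j = c i1 * (1 - T - u) ∧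
        ∑ j, L i2 j * pl A0 A1 A2 u T j = c i2 * T ∧
        ∀ i, i ≠ i0 → i ≠ i1 → i ≠ i2 → ∑ j, L i j * pl A0 A1 A2 u T j = c i := by
  classical
  set e' : Fin (n + 1) ↪ Fin (n + 2) := Fin.castSuccEmb with he'
  obtain ⟨f, hf, hf'⟩ := exists_dual L hgp e'
  have hlast : ∀ k, e' k ≠ Fin.last (n + 1) := fun k => (Fin.castSucc_lt_last k).ne
  have hlam := hf' _ hlast
  set i3 : Fin (n + 2) := Fin.last (n + 1) with hi3
  set lam : Fin (n + 1) → K := fun k => ∑ j, L i3 j * f k j with hlamdef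
  let k0 : Fin (n + 1) := ⟨0, by omega⟩
  let k1 : Fin (n + 1) := ⟨1, by omega⟩
  let k2 : Fin (n + 1) := ⟨2, by omega⟩
  have h01 : k0 ≠ k1 := by simp [k0, k1]
  have h02 : k0 ≠ k2 := by simp [k0, k2]
  have h12 : k1 ≠ k2 := by simp [k1, k2]
  -- the linear form `s`
  set cs : Fin (n + 1) → K := fun j => lam k0 * L (e' k0) j + lam k1 * L (e' k1) j +
    lam k2 * L (e' k2) j with hcs
  have hcsum : ∀ x : Fin (n + 1) → K, ∑ j, cs j * x j = lam k0 * ∑ j, L (e' k0) j * x j +
      lam k1 * ∑ j, L (e' k1) j * x j + lam k2 * ∑ j, L (e' k2) j * x j := by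
    intro x
    rw [Finset.mul_sum, Finset.mul_sum, Finset.mul_sum, ← Finset.sum_add_distrib,
      ← Finset.sum_add_distrib]
    refine Finset.sum_congr rfl fun j _ => ?_
    simp only [hcs]
    ring
  obtain ⟨p, hp, hpk⟩ := exists_point G hG (univ : Finset (Option (Fin (n + 2))))
    (fun o => o.elim cs fun k => L k) (by
      intro o _
      rcases o with _ | k
      · refine ⟨f k0, ?_⟩
        simp only [Option.elim_none]
        rw [hcsum, hf, hf, hf, if_pos rfl, if_neg h01.symm, if_neg h02.symm, mul_zero, mul_zero,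
          add_zero, add_zero, mul_one]
        exact hlam k0
      · rcases Fin.eq_castSucc_or_eq_last k with ⟨k', rfl⟩ | rfl
        · refine ⟨f k', ?_⟩
          simp only [Option.elim_some]
          have := hf k' k'
          rw [if_pos rfl] at this
          have h2 : ∑ j, L k'.castSucc j * f k' j = 1 := this
          rw [h2]
          exact one_ne_zero
        · exact ⟨f k0, hlam k0⟩)
  set y : Fin (n + 2) → K := fun i => ∑ j, L i j * p j with hy
  have hyk : ∀ i, y i ≠ 0 := fun i => hpk (some i) (mem_univ _)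
  set s : K := ∑ j, cs j * p j with hs
  have hs0 : s ≠ 0 := hpk none (mem_univ _)
  -- the basis
  set A0 : Fin (n + 1) → K := fun j => s⁻¹ * (p j - y (e' k0) * f k0 j - y (e' k1) * f k1 j -
    y (e' k2) * f k2 j) + (lam k1)⁻¹ * f k1 j with hA0
  set A1 : Fin (n + 1) → K := fun j => (lam k0)⁻¹ * f k0 j - (lam k1)⁻¹ * f k1 j with hA1
  set A2 : Fin (n + 1) → K := fun j => (lam k2)⁻¹ * f k2 j - (lam k1)⁻¹ * f k1 j with hA2
  have dpl : ∀ (l : Fin (n + 1) → K) (u T : K), ∑ j, l j * pl A0 A1 A2 u T j =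
      s⁻¹ * (∑ j, l j * p j - y (e' k0) * ∑ j, l j * f k0 j - y (e' k1) * ∑ j, l j * f k1 j -
        y (e' k2) * ∑ j, l j * f k2 j) + u * (lam k0)⁻¹ * ∑ j, l j * f k0 j +
        (1 - T - u) * (lam k1)⁻¹ * ∑ j, l j * f k1 j + T * (lam k2)⁻¹ * ∑ j, l j * f k2 j := by
    intro l u T
    simp only [Finset.mul_sum, ← Finset.sum_sub_distrib, ← Finset.sum_add_distrib]
    refine Finset.sum_congr rfl fun j _ => ?_
    simp only [hA0, hA1, hA2, pl]
    ring
  have l0 := hlam k0
  have l1 := hlam k1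
  have l2 := hlam k2
  change lam k0 ≠ 0 at l0
  change lam k1 ≠ 0 at l1
  change lam k2 ≠ 0 at l2
  set c : Fin (n + 2) → K := fun i => if i = e' k0 then (lam k0)⁻¹ else if i = e' k1 then
    (lam k1)⁻¹ else if i = e' k2 then (lam k2)⁻¹ else s⁻¹ * y i with hc
  have i10 : e' k1 ≠ e' k0 := fun h => h01 (e'.injective h).symm
  have i20 : e' k2 ≠ e' k0 := fun h => h02 (e'.injective h).symm
  have i21 : e' k2 ≠ e' k1 := fun h => h12 (e'.injective h).symm
  have c0 : c (e' k0) = (lam k0)⁻¹ := by simp only [hc, if_true]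
  have c1 : c (e' k1) = (lam k1)⁻¹ := by simp only [hc, if_neg i10, if_true]
  have c2 : c (e' k2) = (lam k2)⁻¹ := by simp only [hc, if_neg i20, if_neg i21, if_true]
  have hsy : s = lam k0 * y (e' k0) + lam k1 * y (e' k1) + lam k2 * y (e' k2) := hcsum p
  refine ⟨A0, A1, A2, c, e' k0, e' k1, e' k2, i3, s, s⁻¹ * (lam k0 * y (e' k0)),
    s⁻¹ * (lam k2 * y (e' k2)), hs0, ?_, i10, i20, i21, (hlast k0).symm, (hlast k1).symm,
    (hlast k2).symm, ?_, ?_⟩
  · intro i
    simp only [hc]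
    split_ifs
    · exact inv_ne_zero l0
    · exact inv_ne_zero l1
    · exact inv_ne_zero l2
    · exact mul_ne_zero (inv_ne_zero hs0) (hyk i)
  · have : (fun j => algebraMap K Ω (s * pl A0 A1 A2 (s⁻¹ * (lam k0 * y (e' k0)))
        (s⁻¹ * (lam k2 * y (e' k2))) j)) = fun j => algebraMap K Ω (p j) := by
      funext j
      congr 1
      simp only [pl, hA0, hA1, hA2]
      field_simp
      rw [hsy]
      ring
    rw [this]
    exact hp
  · intro u T
    have key : ∀ k, ∑ j, L (e' k) j * pl A0 A1 A2 u T j =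
        s⁻¹ * (y (e' k) - y (e' k0) * (if k = k0 then 1 else 0) - y (e' k1) *
          (if k = k1 then 1 else 0) - y (e' k2) * (if k = k2 then 1 else 0)) +
        u * (lam k0)⁻¹ * (if k = k0 then 1 else 0) +
        (1 - T - u) * (lam k1)⁻¹ * (if k = k1 then 1 else 0) +
        T * (lam k2)⁻¹ * (if k = k2 then 1 else 0) := by
      intro k
      rw [dpl, hf, hf, hf]
    refine ⟨?_, ?_, ?_, ?_⟩
    · rw [key, if_pos rfl, if_neg h01, if_neg h02, c0]
      ring
    · rw [key, if_pos rfl, if_neg h01.symm, if_neg h12, c1]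
      ring
    · rw [key, if_pos rfl, if_neg h02.symm, if_neg h12.symm, c2]
      ring
    · intro i g0 g1 g2
      have ci : c i = s⁻¹ * y i := by simp only [hc, if_neg g0, if_neg g1, if_neg g2]
      rw [ci]
      rcases Fin.eq_castSucc_or_eq_last i with ⟨k, rfl⟩ | rfl
      · have q0 : k ≠ k0 := fun h => g0 (by rw [h]; rfl)
        have q1 : k ≠ k1 := fun h => g1 (by rw [h]; rfl)
        have q2 : k ≠ k2 := fun h => g2 (by rw [h]; rfl)
        have := key k
        rw [if_neg q0, if_neg q1, if_neg q2] at this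
        have h2 : ∑ j, L k.castSucc j * pl A0 A1 A2 u T j = _ := this
        rw [h2]
        change _ = s⁻¹ * y (e' k)
        ring
      · have h1 : ∑ j, L i3 j * pl A0 A1 A2 u T j = s⁻¹ * (y i3 - y (e' k0) * lam k0 -
            y (e' k1) * lam k1 - y (e' k2) * lam k2) + u * (lam k0)⁻¹ * lam k0 +
            (1 - T - u) * (lam k1)⁻¹ * lam k1 + T * (lam k2)⁻¹ * lam k2 := dpl (L i3) u T
        have h2 : s⁻¹ * (lam k0 * y (e' k0) + lam k1 * y (e' k1) + lam k2 * y (e' k2)) = 1 := by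
          rw [← hsy]
          exact inv_mul_cancel₀ hs0
        rw [h1]
        have g3 : (lam k0)⁻¹ * lam k0 = 1 := inv_mul_cancel₀ l0
        have g4 : (lam k1)⁻¹ * lam k1 = 1 := inv_mul_cancel₀ l1
        have g5 : (lam k2)⁻¹ * lam k2 = 1 := inv_mul_cancel₀ l2
        linear_combination u * g3 + (1 - T - u) * g4 + T * g5 - h2

end Pool.Agent.W231.H
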