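import Pool.Agent.W231.G.Cnt
import Pool.Agent.W231.H.Alg
import Pool.Agent.W231.H.Plane

set_option autoImplicit false

/-!
The truncated counting function along the curves.
-/

namespace Pool.Agent.W231.H

open NumberField IsDedekindDomain Height Finset Polynomial Pool.Agent.W231.V Pool.Agent.W231.G

/-- a linear form -/
noncomputable def lin {K : Type*} [Field K] {σ : Type*} [Fintype σ] (l : σ → K) :
    MvPolynomial σ K := ∑ j, MvPolynomial.C (l j) * MvPolynomial.X j

lemma lin_eval {K : Type*} [Field K] {σ : Type*} [Fintype σ] (l x : σ → K) :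
    MvPolynomial.eval x (lin l) = ∑ j, l j * x j := by
  simp [lin]

variable {K : Type*} [Field K] [NumberField K]

/-- the prime `v` is in the support of the pull back of the divisor -/
def Bad {σ : Type*} (v : HeightOneSpectrum (𝓞 K)) (F : MvPolynomial σ K) (d : ℕ) (x : σ → K) :
    Prop :=
  fv v (MvPolynomial.eval x F) < (⨆ m, fv v (F.coeff m)) * (⨆ j, fv v (x j)) ^ d

theorem count_le {n : ℕ} (L : Fin (n + 2) → Fin (n + 1) → K) (E : MvPolynomial (Fin (n + 1)) K)
    (d : ℕ) (A0 A1 A2 : Fin (n + 1) → K) (c : Fin (n + 2) → K) (i0 i1 i2 : Fin (n + 2))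
    (hc : ∀ i, c i ≠ 0)
    (hpl : ∀ u T : K, ∑ j, L i0 j * pl A0 A1 A2 u T j = c i0 * u ∧
        ∑ j, L i1 j * pl A0 A1 A2 u T j = c i1 * (1 - T - u) ∧
        ∑ j, L i2 j * pl A0 A1 A2 u T j = c i2 * T ∧
        ∀ i, i ≠ i0 → i ≠ i1 → i ≠ i2 → ∑ j, L i j * pl A0 A1 A2 u T j = c i)
    {k : ℕ} (hk : Odd k) {P Q W : K[X]} (hPQ : P * Q = 1 - X ^ k) (hW : pW P Q = X * W)
    (hWk : W.natDegree ≤ k - 1) :
    ∃ C : ℝ, ∀ q : ℕ, ∀ x : Fin (n + 1) → K,
      x = pl A0 A1 A2 ((pV P Q).eval ((2 ^ q : ℕ) : K) ^ 2) (((2 ^ q : ℕ) : K) ^ (2 * k)) →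
      MvPolynomial.eval x ((∏ i, lin (L i)) * E) ≠ 0 →
      {v : HeightOneSpectrum (𝓞 K) | Bad v ((∏ i, lin (L i)) * E) d x}.Finite ∧
      ∀ T : Finset (HeightOneSpectrum (𝓞 K)), (∀ v ∈ T, Bad v ((∏ i, lin (L i)) * E) d x) →
        ∑ v ∈ T, ell v ≤ (totalWeight K : ℝ) * (((k - 1 : ℕ) + (k - 1 : ℕ) +
          (E.totalDegree * (2 * k) : ℕ)) * Real.log ((2 ^ q : ℕ) : ℝ)) + C := by
  classical
  set V : K[X] := pV P Q with hV
  set F : MvPolynomial (Fin (n + 1)) K := (∏ i, lin (L i)) * E with hF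
  have hk1 : 1 ≤ k := hk.pos
  -- the coordinates as polynomials
  set xs : Fin (n + 1) → K[X] := fun j => C (A0 j) + V ^ 2 * C (A1 j) + X ^ (2 * k) * C (A2 j)
    with hxs
  have hVdeg : V.natDegree ≤ k - 1 := pV_natDegree hk hPQ
  have hxsdeg : ∀ j, (xs j).natDegree ≤ 2 * k := by
    intro j
    simp only [hxs]
    refine (natDegree_add_le _ _).trans (max_le ((natDegree_add_le _ _).trans (max_le ?_ ?_)) ?_)
    · rw [natDegree_C]; exact Nat.zero_le _
    · refine (natDegree_mul_C_le _ _).trans (natDegree_pow_le.trans ?_)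
      omega
    · refine (natDegree_mul_C_le _ _).trans ?_
      rw [natDegree_X_pow]
  -- the restriction of `E`
  set RE : K[X] := MvPolynomial.aeval xs E with hRE
  have hREv : ∀ t : K, RE.eval t = MvPolynomial.eval (fun j => (xs j).eval t) E := by
    intro t
    have h1 : RE.eval t = evalRingHom t RE := rfl
    rw [h1, hRE, MvPolynomial.aeval_def, MvPolynomial.hom_eval₂]
    have h2 : (evalRingHom t).comp (algebraMap K K[X]) = RingHom.id K := by ext c; simp
    rw [h2]
    rfl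
  have hREdeg : RE.natDegree ≤ E.totalDegree * (2 * k) := by
    rw [hRE, MvPolynomial.aeval_def, MvPolynomial.eval₂_eq']
    refine natDegree_sum_le_of_forall_le _ _ fun m hm => ?_
    refine (natDegree_C_mul_le _ _).trans ((natDegree_prod_le _ _).trans ?_)
    have h1 : ∑ l, m l ≤ E.totalDegree := by
      have := MvPolynomial.le_totalDegree hm
      rwa [Finsupp.sum_fintype _ _ (fun _ => rfl)] at this
    calc ∑ l, ((xs l) ^ m l).natDegree ≤ ∑ l, m l * (2 * k) :=
          Finset.sum_le_sum fun l _ => natDegree_pow_le.trans (Nat.mul_le_mul_left _ (hxsdeg l))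
      _ = (∑ l, m l) * (2 * k) := by rw [Finset.sum_mul]
      _ ≤ _ := Nat.mul_le_mul_right _ h1
  -- heights
  obtain ⟨C1, hC1⟩ := height_eval_le V hVdeg
  obtain ⟨C2, hC2⟩ := height_eval_le W hWk
  obtain ⟨C3, hC3⟩ := height_eval_le RE hREdeg
  -- the bad primes
  set cs : Finset K := {2} ∪ V.support.image V.coeff ∪ W.support.image W.coeff ∪
    E.support.image E.coeff ∪ F.support.image F.coeff ∪ Finset.univ.image A0 ∪
    Finset.univ.image A1 ∪ Finset.univ.image A2 ∪ Finset.univ.image c with hcs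
  obtain ⟨T0, hT0⟩ := exists_bad cs
  have hm2 : (2 : K) ∈ cs := by simp [hcs]
  have hcf : ∀ R : K[X], R.support.image R.coeff ⊆ cs → ∀ v ∉ T0, ∀ n, fv v (R.coeff n) ≤ 1 := by
    intro R hR v hv n
    by_cases h : R.coeff n = 0
    · rw [h, map_zero]; exact zero_le_one
    · exact (hT0 v hv _ (hR (Finset.mem_image.2 ⟨n, Polynomial.mem_support_iff.2 h, rfl⟩))).2
  have hcV := hcf V (by intro y hy; simp only [hcs, Finset.mem_union]; tauto)
  have hcW := hcf W (by intro y hy; simp only [hcs, Finset.mem_union]; tauto)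
  have hcm : ∀ E' : MvPolynomial (Fin (n + 1)) K, E'.support.image E'.coeff ⊆ cs →
      ∀ v ∉ T0, ∀ m, fv v (E'.coeff m) ≤ 1 := by
    intro E' hE' v hv m
    by_cases h : E'.coeff m = 0
    · rw [h, map_zero]; exact zero_le_one
    · exact (hT0 v hv _ (hE' (Finset.mem_image.2 ⟨m, MvPolynomial.mem_support_iff.2 h, rfl⟩))).2
  have hcE := hcm E (by intro y hy; simp only [hcs, Finset.mem_union]; tauto)
  have hcF := hcm F (by intro y hy; simp only [hcs, Finset.mem_union]; tauto)
  have hmA : ∀ v ∉ T0, ∀ j, fv v (A0 j) ≤ 1 ∧ fv v (A1 j) ≤ 1 ∧ fv v (A2 j) ≤ 1 := by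
    intro v hv j
    refine ⟨(hT0 v hv _ ?_).2, (hT0 v hv _ ?_).2, (hT0 v hv _ ?_).2⟩
    · have : A0 j ∈ Finset.univ.image A0 := Finset.mem_image.2 ⟨j, Finset.mem_univ _, rfl⟩
      simp only [hcs, Finset.mem_union]; tauto
    · have : A1 j ∈ Finset.univ.image A1 := Finset.mem_image.2 ⟨j, Finset.mem_univ _, rfl⟩
      simp only [hcs, Finset.mem_union]; tauto
    · have : A2 j ∈ Finset.univ.image A2 := Finset.mem_image.2 ⟨j, Finset.mem_univ _, rfl⟩
      simp only [hcs, Finset.mem_union]; tauto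
  have hmc : ∀ v ∉ T0, ∀ i, fv v (c i) = 1 := by
    intro v hv i
    refine (hT0 v hv _ ?_).1 (hc i)
    have : c i ∈ Finset.univ.image c := Finset.mem_image.2 ⟨i, Finset.mem_univ _, rfl⟩
    simp only [hcs, Finset.mem_union]; tauto
  refine ⟨∑ v ∈ T0, ell v + C1 + C2 + C3, fun q x hx hFx => ?_⟩
  set t : ℕ := 2 ^ q with ht
  have ht1 : 1 ≤ t := Nat.one_le_two_pow
  have hxt : ∀ j, x j = (xs j).eval (t : K) := by
    intro j
    rw [hx]
    simp only [hxs, pl]
    simp
    ring
  -- values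
  have hVW : (V.eval (t : K)) ^ 2 - ((t : K) * W.eval (t : K)) ^ 2 = 1 - (t : K) ^ (2 * k) := by
    have := congrArg (Polynomial.eval (t : K)) (pV_sq hk hPQ)
    rw [hW, ← hV] at this
    simpa using this
  obtain ⟨f0, f1, f2, f3⟩ := hpl ((V.eval (t : K)) ^ 2) ((t : K) ^ (2 * k))
  rw [← hx] at f0 f1 f2
  have f3' : ∀ i, i ≠ i0 → i ≠ i1 → i ≠ i2 → ∑ j, L i j * x j = c i := by rw [hx]; exact f3
  have f1' : ∑ j, L i1 j * x j = -(c i1 * ((t : K) * W.eval (t : K)) ^ 2) := by
    rw [f1]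
    linear_combination (-c i1) * hVW
  have hFev : MvPolynomial.eval x F = (∏ i, ∑ j, L i j * x j) * RE.eval (t : K) := by
    have hxe : x = fun j => (xs j).eval (t : K) := funext hxt
    rw [hF, hREv, ← hxe, map_mul, map_prod]
    congr 1
    exact Finset.prod_congr rfl fun i _ => lin_eval _ _
  rw [hFev] at hFx
  have n0 : ∏ i, ∑ j, L i j * x j ≠ 0 := left_ne_zero_of_mul hFx
  rw [Finset.prod_ne_zero_iff] at n0
  have n1 : V.eval (t : K) ≠ 0 := by
    intro h
    apply n0 i0 (Finset.mem_univ _)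
    rw [f0, h]
    ring
  have n2 : W.eval (t : K) ≠ 0 := by
    intro h
    apply n0 i1 (Finset.mem_univ _)
    rw [f1', h]
    ring
  have n3 : RE.eval (t : K) ≠ 0 := right_ne_zero_of_mul hFx
  have hft : ∀ v ∉ T0, fv v (t : K) = 1 := by
    intro v hv
    have : (t : K) = 2 ^ q := by rw [ht]; push_cast; rfl
    rw [this, map_pow, (hT0 v hv 2 hm2).1 two_ne_zero, one_pow]
  -- good primes
  have key : ∀ v, Bad v F d x → v ∈ T0 ∨ (fv v (V.eval (t : K)) < 1 ∨ fv v (W.eval (t : K)) < 1 ∨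
      fv v (RE.eval (t : K)) < 1) := by
    intro v hbad
    by_cases hv : v ∈ T0
    · exact Or.inl hv
    right
    by_contra hcon
    push Not at hcon
    obtain ⟨q1, q2, q3⟩ := hcon
    have ftv := hft v hv
    have i1' : fv v (V.eval (t : K)) ≤ 1 := fv_poly_le v V (hcV v hv) ftv.le
    have i3 : fv v (W.eval (t : K)) ≤ 1 := fv_poly_le v W (hcW v hv) ftv.le
    have i0' : ∀ l, fv v (x l) ≤ 1 := by
      intro l
      rw [hx]
      unfold pl
      obtain ⟨a0, a1, a2⟩ := hmA v hv l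
      refine (fv_na v _ _).trans (max_le ((fv_na v _ _).trans (max_le a0 ?_)) ?_)
      · rw [map_mul, map_pow]
        exact mul_le_one₀ (pow_le_one₀ ((fv v).nonneg _) i1') ((fv v).nonneg _) a1
      · rw [map_mul, map_pow, ftv, one_pow, one_mul]
        exact a2
    have i4 : fv v (RE.eval (t : K)) ≤ 1 := by
      rw [hREv]
      refine fv_mv_le v E (hcE v hv) fun l => ?_
      rw [← hxt]
      exact i0' l
    have hprod : fv v (∏ i, ∑ j, L i j * x j) = 1 := by
      rw [map_prod]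
      refine Finset.prod_eq_one fun i _ => ?_
      by_cases h0 : i = i0
      · subst h0
        rw [f0, map_mul, map_pow, hmc v hv, le_antisymm i1' q1, one_pow, one_mul]
      by_cases h1 : i = i1
      · subst h1
        rw [f1', map_neg_eq_map, map_mul, map_pow, map_mul, hmc v hv, ftv, le_antisymm i3 q2]
        norm_num
      by_cases h2 : i = i2
      · subst h2
        rw [f2, map_mul, map_pow, hmc v hv, ftv, one_pow, one_mul]
      · rw [f3' i h0 h1 h2, hmc v hv]
    have hval : fv v (MvPolynomial.eval x F) = 1 := by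
      rw [hFev, map_mul, hprod, le_antisymm i4 q3, one_mul]
    unfold Bad at hbad
    rw [hval] at hbad
    have hs1 : (⨆ m, fv v (F.coeff m)) ≤ 1 := ciSup_le fun m => hcF v hv m
    have hs2 : (⨆ j, fv v (x j)) ≤ 1 := ciSup_le fun j => i0' j
    have hs0 : 0 ≤ (⨆ j, fv v (x j)) := Real.iSup_nonneg fun j => (fv v).nonneg _
    have := mul_le_one₀ hs1 (pow_nonneg hs0 d) (pow_le_one₀ hs0 hs2)
    linarith
  refine ⟨?_, fun T hT => ?_⟩
  · refine (T0.finite_toSet.union ((fv_support_finite n1).union ((fv_support_finite n2).union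
      (fv_support_finite n3)))).subset ?_
    intro v hv
    rcases key v hv with h | h | h | h
    · exact Or.inl h
    · exact Or.inr (Or.inl h.ne)
    · exact Or.inr (Or.inr (Or.inl h.ne))
    · exact Or.inr (Or.inr (Or.inr h.ne))
  have h1 := sum_union_le (Finset.univ : Finset (Fin 3))
    ![V.eval (t : K), W.eval (t : K), RE.eval (t : K)] (by
      intro l _
      fin_cases l
      · exact n1
      · exact n2
      · exact n3) T0 T (by
      intro v hv
      rcases key v (hT v hv) with h | h | h | h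
      · exact Or.inl h
      · exact Or.inr ⟨0, Finset.mem_univ _, h⟩
      · exact Or.inr ⟨1, Finset.mem_univ _, h⟩
      · exact Or.inr ⟨2, Finset.mem_univ _, h⟩)
  rw [Fin.sum_univ_three] at h1
  have g1 := hC1 t ht1
  have g2 := hC2 t ht1
  have g3 := hC3 t ht1
  refine h1.trans ?_
  change ∑ v ∈ T0, ell v + (logHeight₁ (V.eval (t : K)) + logHeight₁ (W.eval (t : K)) +
    logHeight₁ (RE.eval (t : K))) ≤ _
  nlinarith

end Pool.Agent.W231.H
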